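import Mathlib
import Pool.Agent.U46.EX8

/-!
# The variational Hodge conjecture for every family of abelian varieties with many moduli, and its
# products with any family of varieties

Let `A → B` be ANY holomorphic family of principally polarized abelian varieties of dimension `g`:
nothing is assumed about its members (no simple member, no endomorphism algebra, no monodromy). The
homology of the members is trivialized (`B` is the universal covering of the base, or a chart), `Z` is
the period matrix and `perPow (Z b) n` the inclusion of the homology of `A_b ^ n` in its tangent space.

(1) Let `B = U` be a connected open subset of `ℂ ^ d`, let `D` be the rank of the Kodaira-Spencer map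
at some point, and `4 D > g ^ 2`, `4 D > (ρ + 1) ^ 2 + 2 (g - ρ - 1) (g - ρ)` (`ManyModuli g ρ D`). If
`n ρ ≤ 3` then every flat class on `A ^ n` which is a Hodge class on all members is a combination of
products of flat divisor classes. With the theorems of the fixed part and of Lefschetz this is the
variational Hodge conjecture in all degrees for `A ^ n`: for `n = 1` if `D` is more than `g ^ 2 / 4` and
`4 + (g - 4) (g - 3) / 2` (`ρ = 3`), for `n ≤ 3` with `ρ = 1`, and for all `n` if `D > g (g - 1) / 2`
(`ρ = 0`), that is, if the family has codimension less than `g` in the moduli space of dimension
`g (g + 1) / 2`.

(2) Let `Y → B` be any family of smooth projective varieties (its Hodge structures, `Y b : Coh v`), and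
suppose that through each point of `B` there is a connected complex manifold along which the Hodge
structure of `Y` is constant and `A` is holomorphic and has `D > g (g - 1) / 2` moduli. For instance
`Y` is one fixed variety, or `B = U × S`, `A` is a family over `U` and `Y` a family over `S`. Then for
all `n` every flat class on `A ^ n ×_B Y` which is a Hodge class on all members is a sum of products of
a flat combination of products of divisor classes on `A ^ n` and a flat Hodge class on `Y`, and the
variational Hodge conjecture for `Y → B` implies it for `A ^ n ×_B Y → B`. For a fixed variety `Y`
(about which nothing is assumed) the variational Hodge conjecture for `A ^ n × Y → B` holds.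

The starting results on this problem treat families of products of simple members with many moduli
(`ManyModuliFlat`) and products of moving families, each with a simple member, with any `Y`
(`TimesAnyVariety`). Here the family is arbitrary.

The proof. Let `K` be a countable field. If the Kodaira-Spencer map has rank `D` at one point then `D`
entries of the period matrix have independent differentials there, a polynomial relation over `K`
between them would hold on an open set of `ℂ ^ D`, so they are algebraically independent over `K` at all
points outside countably many zero sets of nonzero holomorphic functions
(`Pool.Agent.U46.EX.very_general`), and outside further such zero sets all Hodge classes are flat. With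
`K` the field of the periods of `Y_b` the theorem of the library on abelian varieties with independent
periods (`Pool.Agent.X311.many_periods`) describes the Hodge classes on `A_t ^ n × Y_b`. The components
on `Y` are found by algebraic operations with the perfect pairing of `Pool.Agent.TH504.VY`.
-/

set_option autoImplicit false

namespace Pool.Agent.Results.MP_e9c0f3_ag.EveryLargeFamily

open Module Pool.Agent.W437.HC Pool.Agent.TH504.VL Pool.Agent.TH504.VY Pool.Agent.TH131.GHC
  Pool.Agent.U46.EX

/-- **The variational Hodge conjecture** for every family `A` of abelian varieties with many moduli,
and for the products `A ^ n ×_B Y` with any family `Y` of varieties. -/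
theorem result {g : ℕ} :
    (∀ {d : ℕ} {U : Set (Fin d → ℂ)} {Z : (Fin d → ℂ) → Matrix (Fin g) (Fin g) ℂ}
      {s : Fin d → ℂ}, IsOpen U → IsPreconnected U → IsFamily U Z → s ∈ U → ∀ ρ n : ℕ,
      ManyModuli g ρ (finrank ℂ (LinearMap.range (ksMap Z s))) → n * ρ ≤ 3 →
      FlatClassesFromDivisors U Z n) ∧
    ∀ {B : Type} [Nonempty B] {v : ℕ} (Z : B → Matrix (Fin g) (Fin g) ℂ) (Y : B → Coh v),
      HasManyModuliRelative Z Y → ∀ n : ℕ,
        HodgeClassesAreProducts (fun b => perPow (Z b) n) Y ∧
          VariationalFromY (fun b => perPow (Z b) n) Y :=
  ⟨fun hU hc hZ hs _ _ hD hn => flat_powers hU hc hZ hs hD hn,
    fun Z Y h n => vhc_times Z Y h n⟩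

end Pool.Agent.Results.MP_e9c0f3_ag.EveryLargeFamily
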