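import Pool.Agent.U231.HF.VHFin
import Pool.Agent.U231.HF.Large

/-!
# The variational Hodge conjecture for the products of arbitrary families with Fermat varieties

Let `𝒵 → S` be **any** smooth projective family of varieties over a connected base `S`, and `o` a point of `S`. Let `B ≥ 1` be a
bound for the dimensions of the simple Hodge substructures **of CM type** of the rational cohomology of the **one** fibre `𝒵_o`;
for instance any bound for its Betti numbers will do, and `B = 1` if the only simple substructures of CM type are the lines of
Hodge classes. The other fibres are arbitrary. Let `X_i` be products of Fermat varieties
`x_0 ^ N_i + ⋯ + x_{n+1} ^ N_i = 0` of the same prime degree `N_i`, and let the degrees `N_i` be different. Let `s_i` be the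
number of all coordinates used for `X_i`, i.e. the sum of the numbers `n + 2` of the factors. Suppose for all `i` that
`N_i > s_i B + 1`, or only that every odd divisor `m ≤ s_i` of `N_i - 1` satisfies `m B < N_i - 1`. Let `X_L` be the product of
some of the `X_i` (each taken once), and let `p` be an integer.

**Theorem.** (1) Every global section `φ` of `R ^ {2 p} (ℚ (p))` for the family `X_L × 𝒵 → S` whose value at `o` is a Hodge class (for
instance algebraic) is a sum of external products `a_1 × ⋯ × a_r × ψ` of classes `a_i` of algebraic cycles of codimension `c_i` on
the `X_i` and global sections `ψ` of `R ^ {2 q} (ℚ (q))` for the family `𝒵 → S` whose values at `o` are Hodge classes, with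
`c_1 + ⋯ + c_r + q = p`.

(2) **The variational Hodge conjecture (with respect to the point `o`) holds in codimension `p` for the family `X_L × 𝒵 → S` if
and only if it holds for the family `𝒵 → S` in the codimensions `j` with `p - dim X_L ≤ j ≤ p`.** So it holds in all
codimensions for `X_L × 𝒵 → S` if and only if it does for `𝒵 → S`.

So for a given family the theorem applies to all primes `N_i` with finitely many exceptions. It applies for
all dimensions of the Fermat varieties and all numbers of them if a power of `2` which divides `N_i - 1` is greater than `B`;
in particular, for `B = 1` it applies **to all odd primes `N_i`, without any condition**. For instance the variational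
Hodge conjecture follows for `X_L × 𝒵 → S` if `𝒵` is a family of varieties of dimension at most three, in all codimensions; and
for a family of varieties of dimension four, for which only the codimension `2` is open, it is equivalent to the
variational Hodge conjecture for `𝒵` in codimension `2` (if `2 ≤ p ≤ 2 + dim X_L`). The condition concerns only the fibre at `o`: the
fibres at other points, where for instance simple substructures of CM type of any dimension may occur, are arbitrary.

**The formal setting.** The framework is that of the starting files `Pool.Agent.Y121.AHS`. A `HodgeTheory` is a Weil cohomology
theory `W` with rational coefficients with a Hodge decomposition `pq` of the cohomology `HL W ℂ X` with complex coefficients,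
compatible with products, pull-backs, push-forwards and cycle classes, with polarisations. A `Family` consists of the
fibres and of the sets of the transport maps of the cohomology along the paths in `S`. `Family.times` is the family with the
fibres `X_L × F_s`, with the transport maps `id ⊗ p` (`productsMaps`).

The middle cohomology of a Fermat variety `X` of degree `N` and dimension `n` is, with complex coefficients, the direct sum of
the eigenspaces `V_a` of the group `μ_N ^ (n+2)`, where `a = (a_0, …, a_{n+1})` consists of residues modulo `N` different
from `0` with the sum `0` (and of the class of linear sections, with the empty multiset `a`). The Hodge type of `V_a` is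
`(p, q)` with `p - q = ∑_j (2 ⟨a_j / N⟩ - 1) = (1 / N) ∑_j saw (a_j)` (up to the sign), where `saw (b) = 2 b - N` for
`0 < b < N`. If an automorphism of `ℂ` raises the roots of unity of order `N` to the power `c`, then it maps `V_a` to
`V_{c a}`. If the multisets `a` and `-a` are equal then `V_a` is spanned by the classes of linear subspaces (Ran, Shioda). For
products of Fermat varieties of the degree `N` one takes the tensor products, and the multisets are added; if the
multiset is symmetric then the classes are algebraic by Shioda's inductive structure. This is what
`IsFermatDecomposition` says, and nothing else is assumed of the `X_i` (and that there is a zero-cycle of nonzero degree).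

`HasPieces T B Z` says that `H(Z, ℚ)` is a direct sum of Hodge substructures `U`, each of which has dimension at most `B` or has
no pure element `v ≠ 0` in `U_ℂ`. Here `v` is pure if every conjugate `σ(v)`, `σ ∈ Aut(ℂ)`, is a sum of elements of types
`(p, q)` with one value of `p - q`. The Mumford-Tate group acts on the line of a pure element by a character, so a polarisable
`U` has such elements if and only if it has a substructure of CM type.

**The proof.** Let `Z` be the fibre at `o` and `y = φ_o`, a Hodge class on `X_1 × ⋯ × X_r × Z`. Suppose that `y` has a component
different from `0` for the characters `a_i` of the `X_i`, where `a = a_1` is not symmetric. The contractions `v` of this component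
with linear forms are elements of `H(Z, ℂ)`. Let `G` be the operator which is multiplication by `2 ^ (p - q)` on
`H ^ (p, q)`; it is a ring automorphism, commutes with pull-backs and fixes `y`. For automorphisms `t` of the field `ℂ` the
conjugates `t G t⁻¹` act on `v` by known scalars: since `y` is rational and a Hodge class, the exponent is `- ∑_i S_i (t) / N_i`,
where `S_i (t)` is the sum of the sawtooth function over the multiset `c_i (t) a_i`, and `c_i` is the cyclotomic
character modulo `N_i`. The same is true for the projections of `v` to the Hodge substructures `U` in the
decomposition of `H(Z, ℚ)`; so these are pure, and one which is different from `0` is in a substructure `U` with `dim U ≤ B`; we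
replace `v` by it. Now choose automorphisms `g` of `ℂ` with a given value of `c_1 (g)` and with `c_i (g) = 1` for `i ≠ 1`.
The vectors `g v` are again in `U_ℂ`, and two of them have different eigenvalues for some `t G t⁻¹`, unless
they have the same function `t ↦ S_1 (t g)`. So these vectors are linearly independent, and the stabilizer `H` of
the function `t ↦ S_1 (t)` in `(ℤ/N_1)ˣ` has index at most `dim U ≤ B`. The function is the convolution of the sawtooth
function with the odd part of the multiplicity function of `a`. Since the generalized Bernoulli numbers `B_{1,χ}` of the odd
characters are different from `0`, the odd part is determined by the convolution, so it is invariant under `H`. It is not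
zero, since `a` is not symmetric. So `-1` is not in `H`, the order `m` of `H` is an odd divisor of `N_1 - 1`, and the support
of `a` contains a coset of `H`, so `m ≤ s_1`. But `m B ≥ N_1 - 1`, a contradiction. So only symmetric, algebraic
characters occur.
Hence `φ_o = ∑ b_l × y_l` with classes `b_l` of algebraic cycles on `X_1`, and `y_l` is the contraction of `φ_o` with an algebraic
class `u_l` (take the part of the right degree of it). The contractions `y_l (s)` of the `φ_s` with `u_l` are global sections, and
`φ_s = ∑ b_l × y_l (s)` for all `s`, since this is so for `s = o` and `S` is connected. If `φ_o` is algebraic, then so is
`y_l (o)`; by induction the `y_l (s)` and the `φ_s` are algebraic for all `s`. Conversely, let `h` be an ample class on `X_1`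
and `0 ≤ e ≤ dim X_1`. If `ψ` is a global section for `X_2 × ⋯ × X_r × 𝒵` which is algebraic at `o`, of codimension `p - e`, then
`h ^ e × ψ` is algebraic at `o`, so at all `s` by the conjecture in codimension `p`, and `ψ_s` is a nonzero multiple of the
contraction with `h ^ (dim X_1 - e)`.

helper231. The nonvanishing of the Bernoulli numbers is from the starting file `Pool.Agent.H916R2.Indep` (Mathlib has
Dirichlet's theorem on `L(1, χ)`), the automorphisms of `ℂ` with given cyclotomic characters are from
`Pool.Agent.Helper475.ExistsRingequivPow`.
-/

set_option autoImplicit false

open CategoryTheory AlgebraicGeometry

universe u

namespace Pool.Agent.Results.MP_e9c0f3_ag.FermatTimesArbitrary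

open Pool.Agent.H914 Pool.Agent.Y121.AHS Pool.Agent.U231.HF Pool.Agent.U231.HF.VH

/-- **The variational Hodge conjecture for products of arbitrary families with varieties of Fermat
type.** -/
theorem result {k : Type u} [Field k] {𝒱 : VarClass k} {ops : CycleOps 𝒱} (T : HodgeTheory ops)
    {ι : Type} (N s : ι → ℕ) (X : ι → 𝒱.Obj) (hX : AreFermatFactors T N s X)
    {S : Type} (F : Family T.W S) (hF : F.IsGraded) (o : S) (hc : F.IsConnected o) {B : ℕ}
    (hB : 0 < B) (hZ : HasPieces T B (F.fibre o)) (hN : ∀ i, IsLarge (N i) (s i) B) (L : List ι)
    (hL : L.Nodup) (p : ℕ) :
    (∀ φ, IsHodgeSection T (F.times X L) o p φ → IsExtSection X F (IsHodgeSection T F o) L p φ) ∧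
      (Variational (F.times X L) o p ↔
        ∀ j ≤ p, p ≤ j + (L.map fun i => (X i).dim).sum → Variational F o j) :=
  ⟨fun _ h => hodge_sections hX hF hc hB hZ hN hL h, variational_iff hX hF hc hB hZ hN hL p⟩

end Pool.Agent.Results.MP_e9c0f3_ag.FermatTimesArbitrary
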