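import Pool.Agent.U228.LF.Main

/-!
# The variational Hodge conjecture for products of powers of Lefschetz fibrations with any family

Let `𝒮` be a smooth connected complex variety with fundamental group `Γ`, let `X_i → 𝒮` be smooth
projective families and `Z → 𝒮` **any** smooth projective family. We suppose that (`LefschetzFamily`)

* the algebraic classes of the geometric generic fibre of `X_i` are global sections, the transcendental
  part `T_i` of the cohomology (the orthogonal complement of these algebraic classes) is in the middle
  degree and irreducible under the subgroups of finite index of `Γ`, and homological and numerical
  equivalence agree on the powers of the geometric generic fibre (this follows from the conjecture of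
  Lefschetz type for it);
* for each `i` there is an element of `Γ` which acts on `T_i` by a Picard-Lefschetz formula
  `t ↦ t + c (δ, t) δ` and trivially on the cohomology of `Z` and of the `X_j`, `j ≠ i`.

Example: `𝒮` is the complement of the discriminants in a product of parameter spaces, the `X_i` are the
universal families of hypersurfaces or complete intersections, or the fibres of Lefschetz pencils, with
different discriminants, and `Z` has good reduction over general points of these discriminants. For
instance `Z` is one fixed variety, or a family of curves, abelian varieties, ... over another base.

Let `Y` be the fibre product of `Z` with arbitrary powers of finitely many different `X_i` (`Tower`).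
There is no bound on the dimensions of the `X_i`, even or odd, nor on the exponents.

**Theorem.**

1. Each global section over `𝒮` of the local system of the cohomology of `Y` is a combination of products
   `a · q^* z`, where `a` is a global section which is algebraic on the geometric generic fibre (so on all
   fibres) and `z` is a global section for `Z`, `q : Y → Z`.
2. The variational Hodge conjecture holds for `Y` **if and only if** it holds for `Z`.
3. If `Z` is constant then the variational Hodge conjecture holds for `Y`.
4. The variational Hodge conjecture for `Z` implies it for all families dominated by `Y`.

Proof. Let `h` be the form on `T_i^m`, with values in the cohomology of the rest of the product, given by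
a component of a global section; it is equivariant. The operators of rank two given by two conjugates
of the reflection (and in odd dimension the logarithm of the transvection) kill all equivariant forms,
and so does the full orthogonal or symplectic Lie algebra (library, `TH125.Gal.all_mem`). In even
dimension and for `m < dim T_i` the first fundamental theorem for `so(T_i)` applies (library); for
`m ≥ dim T_i` there are also the determinants. New here (`U228/LF/Offt`): the first fundamental theorem
for forms which are killed by `so(T_i)` and invariant under one reflection, without a condition on `m`,
by induction on `m`: the Jucys-Murphy elements act through the contractions, and the alternating part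
in `dim T_i` variables vanishes, since in an orthogonal basis which contains `δ` an invariant form
vanishes if `δ` occurs an odd number of times. So the section is a sum of products of algebraic classes
of the power of `X_i`, which are global sections, and of classes on the rest, which are unique, so
global sections; by conjecture D they are obtained from the section by algebraic operations, which
preserve the algebraic classes on the fibre over each point.
-/

open CategoryTheory AlgebraicGeometry

universe u v w

namespace Pool.Agent.Results.MP_e9c0f3_ag.LefschetzFibrations

open Pool.Agent.H914 Pool.Agent.H914.VarClass Pool.Agent.H914.VarClass.Obj
  Pool.Agent.TH125.Gal Pool.Agent.U228.LF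

/-- **The variational Hodge conjecture for products of powers of Lefschetz fibrations with any
family.** -/
theorem result {k : Type u} [Field k] {𝒱 : VarClass k} {ops : CycleOps 𝒱}
    (W : WeilCohomology.{u, v} ops) {Γ : Type w} [Group Γ] {ι : Type} (X : ι → GVar W Γ)
    (Z : GVar W Γ) (h : LefschetzFamily X Z) {S : Set ι} {Y : GVar W Γ} {q : Y.X ⟶ Z.X}
    (hY : Tower X Z S Y q) :
    (∀ c, Flat Y c → c ∈ productSections Y Z q) ∧
    ∀ {B : Type} (𝒜 : Fibres W B), (VHC 𝒜 Y ↔ VHC 𝒜 Z) ∧
      ((∀ b b', 𝒜.alg b Z.X = 𝒜.alg b' Z.X) → VHC 𝒜 Y) ∧
      ∀ V, Dominates Y V → VHC 𝒜 Z → VHC 𝒜 V :=
  ⟨sections_tower h hY, fun 𝒜 => ⟨vhc_tower h 𝒜 hY,
    fun hc => (vhc_tower h 𝒜 hY).2 fun b b' _ _ hb => hc b b' ▸ hb,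
    fun _ hD hV => vhc_dominated 𝒜 hD ((vhc_tower h 𝒜 hY).2 hV)⟩⟩

end Pool.Agent.Results.MP_e9c0f3_ag.LefschetzFibrations
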