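import Pool.Agent.U436.WC.Main

/-!
# Algebraic cycles for the Weil classes on the Jacobians of cyclic coverings of the line

Let `k` be an algebraically closed field (for the problem `k = ℂ`), `n ≥ 2`, `e ≥ 1`, `0 < b j < n`
(`j = 1, …, e + 1`), and let `C = C_(p, q)` be the cyclic covering

  `w ^ n = ∏ j, (x - p j) ^ b j * (x - q j) ^ (n - b j)`

of the projective line, `s = (p, q)` a point of the space `S` of the vectors of `2 e + 2` different points. For every
character `χ` of the group `μ_n` such that no `χ ^ b j` is trivial the `χ`-part of `H¹(C)` has dimension `2 e` and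
the Hodge type `(e, e)`; its determinants `W_χ = ⋀ ^ (2 e) H¹(C)_χ ⊆ H ^ (2 e) (J(C))` are the Weil classes. They
consist of Hodge classes of degree `e`, are flat over `S`, and are not in the ring generated by the divisor
classes in general.

Let `Y` be the FIXED variety `∑ (u j + v j) = 0`, `w ^ n = ∏ u j ^ b j * v j ^ (n - b j)` (in the weighted projective
space with the weights `1` for the `u j`, `v j` and `e + 1` for `w`), of dimension `2 e`; it is a quotient of the
Fermat variety of degree `n` and dimension `2 e`. We show, for every point of `S`: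

(1) There is an explicit map from `C ^ (2 e)` onto `Y` (the coordinates `u j`, `v j` are the values at the `p j`, `q j`
of a product of linear forms); its fibres are the orbits of the finite group of the pairs of a permutation and a
vector of `n`-th roots of unity with product one.

(2) Over the linear subspace `u = - v` of dimension `e` the covering `Y` splits: the preimage is the union of the
linear subspaces `Λ_ξ = {(-v, v, ξ ∏ v j)}`, `ξ ^ n = (-1) ^ (∑ b j)`, which are permuted by `μ_n`.

By (1) `H ^ (2 e) (Y)_χ` is isomorphic to the line `⋀ ^ (2 e) H¹(C)_χ`, so that this line does not depend on `s`,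
and by the work of Shioda on the Fermat varieties the `χ`-component of the class of `Λ_ξ` is not zero. So the
inverse images of the `Λ_ξ`, a family of algebraic cycles of codimension `e` on the fibre power `C ^ (2 e)` over
`S`, give all the Weil classes: these flat classes are algebraic on EVERY fibre, for all `n`, all `e` and all `b`
(not formalised).
-/

set_option autoImplicit false

namespace Pool.Agent.Results.MP_e9c0f3_ag.WeilClassesCyclicCovers

open Pool.Agent.U436.WC Polynomial

/-- The map from the `2 e`-th power of the curve to the fixed variety is defined and surjective, and its fibres are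
the orbits of the finite group. -/
def IsQuotient {k : Type} [Field k] {e : ℕ} (n : ℕ) (b : Fin (e + 1) → ℕ) (p q : Fin (e + 1) → k) (c : k) : Prop :=
  (∀ x : Fin (2 * e) → k[X] × k, (∀ l, x l ∈ curve n p q b) → toTarget p q c x ∈ target n b) ∧
  (∀ z ∈ (target n b : Set ((Fin (e + 1) → k) × (Fin (e + 1) → k) × k)),
    ∃ x : Fin (2 * e) → k[X] × k, (∀ l, x l ∈ curve n p q b) ∧ toTarget p q c x = z) ∧
  (∀ x x' : Fin (2 * e) → k[X] × k, (∀ l, x l ∈ curve n p q b) → (∀ l, x' l ∈ curve n p q b) →
    (SamePoint (toTarget p q c x) (toTarget p q c x') ↔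
      ∃ (σ : Equiv.Perm (Fin (2 * e))) (ζ : Fin (2 * e) → k), (∀ l, ζ l ^ n = 1) ∧ ∏ l, ζ l = 1 ∧
        ∀ l, ∃ t : k, t ≠ 0 ∧ (x' l).1 = C t * (x (σ l)).1 ∧ (x' l).2 = t ^ (e + 1) * (ζ l * (x (σ l)).2)))

theorem result (k : Type) [Field k] [IsAlgClosed k] (n e : ℕ) (hn : n ≠ 0) (he : 1 ≤ e) (b : Fin (e + 1) → ℕ)
    (hb : ∀ j, b j ≤ n) :
    (∀ p q : Fin (e + 1) → k, Function.Injective (Fin.append p q) → ∃ c : k, c ≠ 0 ∧ IsQuotient n b p q c) ∧
    (∀ v : Fin (e + 1) → k, v ≠ 0 → ∀ w : k, (fun j => -v j, v, w) ∈ target n b ↔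
      ∃ ξ : k, ξ ^ n = (-1) ^ (∑ j, b j) ∧ w = ξ * ∏ j, v j) := by
  refine ⟨fun p q h => ?_, fun v hv w => linear_iff hn hb v hv w⟩
  have h' : Function.Injective (br p q) := h
  obtain ⟨c, hc⟩ := IsAlgClosed.exists_pow_nat_eq (∏ j, wp p q j ^ b j * wq p q j ^ (n - b j))
    (Nat.pos_of_ne_zero hn)
  have hc0 : c ≠ 0 := by
    rintro rfl
    rw [zero_pow hn] at hc
    exact (Finset.prod_ne_zero_iff.mpr fun j _ => mul_ne_zero (pow_ne_zero _ (wp_ne_zero h' j))
      (pow_ne_zero _ (wq_ne_zero h' j))) hc.symm
  exact ⟨c, hc0, fun x hx => toTarget_mem h' hc hc0 hx, fun z hz => toTarget_surj hn he h' hc hc0 hz,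
    fun x x' hx hx' => toTarget_same_iff hn hb h' hc0 hx hx'⟩

end Pool.Agent.Results.MP_e9c0f3_ag.WeilClassesCyclicCovers
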